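import Pool.Agent.KS6_46.KEC.Code

/-!
# The one-step extension for arbitrary cardinals
-/

set_option autoImplicit false

open Cardinal Function

namespace Pool.Agent.KS6_46.KEC

open Pool.Agent.V1132.KEC

universe u

theorem exists_seg {κ ρ : Cardinal.{u}} (h : ρ < κ) :
    ∃ i : κ.ord.ToType, #(Set.Iio i) = ρ := by
  let f := Ordinal.principalSegToType (Cardinal.ord_lt_ord.mpr h)
  refine ⟨f.top, ?_⟩
  have h1 : Set.Iio f.top = Set.range f := by
    ext x
    exact (f.mem_range_iff_rel' x).symm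
  rw [h1, Cardinal.mk_range_eq _ f.injective, Cardinal.mk_ord_toType]

/-- the number of small subsets -/
theorem mk_small_sets {κ c : Cardinal.{u}} (hc : ℵ₀ ≤ c) (hκc : κ ≤ c)
    (hpow : ∀ ρ < κ, c ^ ρ ≤ c) (A : Type u) (hA : #A ≤ c) :
    #{S : Set A // #S < κ} ≤ c := by
  let T : Type u := Option (Σ i : κ.ord.ToType, (Set.Iio i → A))
  have hT : #T ≤ c := by
    rw [Cardinal.mk_option]
    refine (add_le_add_left (?_ : _ ≤ c) 1).trans (Cardinal.add_one_eq hc).le
    rw [Cardinal.mk_sigma]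
    refine (Cardinal.sum_le_mk_mul_iSup _).trans ?_
    rw [Cardinal.mk_ord_toType]
    refine (mul_le_mul' hκc (ciSup_le' fun i => ?_)).trans (Cardinal.mul_eq_self hc).le
    rw [← Cardinal.power_def]
    exact (Cardinal.power_le_power_right hA).trans (hpow _ (Cardinal.mk_Iio_toType_ord_lt i))
  let f : T → Set A := fun t => t.elim ∅ (fun p => Set.range p.2)
  have hf : ∀ S : {S : Set A // #S < κ}, ∃ t, f t = S.1 := by
    rintro ⟨S, hS⟩
    rcases S.eq_empty_or_nonempty with h | h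
    · exact ⟨none, by simp [f, h]⟩
    · obtain ⟨i, hi⟩ := exists_seg hS
      obtain ⟨e⟩ := Cardinal.eq.mp hi
      exact ⟨some ⟨i, fun x => (e x : A)⟩, by
        simp only [f, Option.elim_some]
        ext a
        constructor
        · rintro ⟨x, rfl⟩
          exact (e x).2
        · intro ha
          exact ⟨e.symm ⟨a, ha⟩, by simp⟩⟩
  choose g hg using hf
  refine (Cardinal.mk_le_of_injective (f := g) ?_).trans hT
  intro S S' h
  apply Subtype.ext
  rw [← hg S, ← hg S', h]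

theorem exists_step' {κ c : Cardinal.{u}} (hc : ℵ₀ ≤ c) (hκc : κ ≤ c)
    (hpow : ∀ ρ < κ, c ^ ρ ≤ c) (D : Type u) (hDc : #D ≤ c)
    (W : Type u) [Group W] (hW : #W ≤ c)
    (K : Type u) [Group K] (hK : #K ≤ c) (R : K → K → Prop) :
    ∃ (P : Type u) (_ : Group P) (b : K →* P), Injective b ∧ #P = c ∧
      (∃ f : W →* P, Injective f) ∧
      (∃ y : Fin 4 → P, ∀ g h : K, Test y (b g) (b h) ↔ ¬ R g h) ∧
      (∀ S : Set (FreeGroup (K ⊕ D) × Bool), #S < κ →
        (∃ (H : Type u) (_ : Group H) (ι : K →* H) (y : D → H), Injective ι ∧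
          Sol S (Sum.elim ι y)) →
        ∃ y : D → P, Sol S (Sum.elim b y)) := by
  classical
  -- the coding extension
  have hcode : ∃ (E : Ext K c) (y : Fin 4 → E.H), c ≤ #E.H ∧ (∃ f : W →* E.H, Injective f) ∧
      ∀ g h : K, Test y (E.ι g) (E.ι h) ↔ ¬ R g h := by
    obtain ⟨H, _, ι, y, hι, hy⟩ := exists_code K R
    let H' := H × (FreeGroup c.out × W)
    obtain ⟨L, _, j, ι', z, hj, hι', hz, hL⟩ := cutdown
      (K := K) (D := ULift.{u} (Fin 4) ⊕ (c.out ⊕ W))
      ((MonoidHom.inl H (FreeGroup c.out × W)).comp ι)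
      (Sum.elim (fun n => ((y n.down, 1) : H'))
        (Sum.elim (fun a => ((1, (FreeGroup.of a, 1)) : H')) (fun w => ((1, (1, w)) : H'))))
      hc hK (by
        rw [Cardinal.mk_sum, Cardinal.mk_sum, Cardinal.lift_id, Cardinal.lift_id, Cardinal.lift_id,
          Cardinal.lift_id, Cardinal.mk_out]
        refine Cardinal.add_le_of_le hc ?_ (Cardinal.add_le_of_le hc le_rfl hW)
        exact (Cardinal.lt_aleph0_of_finite _).le.trans hc)
    have hinl : Injective (MonoidHom.inl H (FreeGroup c.out × W)) := fun x y h => by simpa using h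
    have hι'inj : Injective ι' := by
      intro x y hxy
      apply hι
      apply hinl
      have := congrArg j hxy
      rw [hι', hι'] at this
      exact this
    refine ⟨⟨L, inferInstance, ι', hι'inj, hL⟩, fun n => z (Sum.inl ⟨n⟩), ?_, ?_, ?_⟩
    · have hzi : Injective (fun a : c.out => z (Sum.inr (Sum.inl a))) := by
        intro a a' h
        have := congrArg j h
        simp only [hz, Sum.elim_inr, Sum.elim_inl, Prod.mk.injEq, true_and, and_true] at this
        exact FreeGroup.of_injective this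
      calc c = #c.out := (Cardinal.mk_out c).symm
        _ ≤ #L := Cardinal.mk_le_of_injective hzi
    · refine ⟨MonoidHom.mk' (fun w => z (Sum.inr (Sum.inr w))) ?_, ?_⟩
      · intro w w'
        apply hj
        rw [map_mul, hz, hz, hz]
        simp [H']
      · intro w w' h
        have := congrArg j h
        simp only [MonoidHom.mk'_apply, hz, Sum.elim_inr, Prod.mk.injEq, true_and] at this
        exact this
    · intro g h
      rw [← hy g h, ← Test.map_iff j hj, ← Test.map_iff _ hinl y (ι g) (ι h)]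
      have h1 : (fun n : Fin 4 => j (z (Sum.inl ⟨n⟩))) =
          fun n => (MonoidHom.inl H (FreeGroup c.out × W)) (y n) := by
        funext n
        rw [hz]
        rfl
      rw [h1, hι', hι']
      rfl
  obtain ⟨E0, y0, hE0, ⟨fW, hfW⟩, hy0⟩ := hcode
  -- the solving extensions
  let J0 := {S : {S : Set (FreeGroup (K ⊕ D) × Bool) // #S < κ} //
    ∃ (H : Type u) (_ : Group H) (ι : K →* H) (y : D → H), Injective ι ∧
      Sol S.1 (Sum.elim ι y)}
  have hJ0 : #J0 ≤ c := by
    refine (Cardinal.mk_subtype_le _).trans (mk_small_sets hc hκc hpow _ ?_)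
    have h3 : #(FreeGroup (K ⊕ D)) ≤ c := by
      rw [Cardinal.mk_freeGroup, Cardinal.mk_sum, Cardinal.lift_id, Cardinal.lift_id]
      exact max_le (Cardinal.add_le_of_le hc hK hDc) hc
    rw [Cardinal.mk_prod, Cardinal.mk_bool]
    simp only [Cardinal.lift_id, Cardinal.lift_ofNat, Cardinal.lift_uzero]
    refine (mul_le_mul' h3 ((Cardinal.natCast_lt_aleph0 (n := 2)).le.trans hc)).trans ?_
    rw [Cardinal.mul_eq_self hc]
  have hsolve : ∀ S : J0, ∃ (E : Ext K c) (y : D → E.H), Sol S.1.1 (Sum.elim E.ι y) := by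
    intro S
    obtain ⟨H, _, ι, y, hι, hs⟩ := S.2
    obtain ⟨L, _, i, ι', y', hi, hι', hy', hL⟩ := cutdown ι y hc hK hDc
    have hι'inj : Injective ι' := by
      intro x y hxy
      apply hι
      rw [← hι', ← hι', hxy]
    refine ⟨⟨L, inferInstance, ι', hι'inj, hL⟩, y', ?_⟩
    rw [← Sol.of_injective i hi]
    convert hs using 1
    ext d
    rcases d with d | d <;> simp [hι', hy']
  choose E y hEy using hsolve
  let EE : Option J0 → Ext K c := fun o => o.elim E0 E
  obtain ⟨P, _, b, f, hb, hf, hfb, hP⟩ := exists_amalgam K (fun j => (EE j).H)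
    (fun j => (EE j).ι) (fun j => (EE j).inj) hc (by
      rw [Cardinal.mk_option]
      refine (add_le_add_left hJ0 1).trans ?_
      exact (Cardinal.add_one_eq hc).le) (fun j => (EE j).card)
  refine ⟨P, inferInstance, b, hb, le_antisymm hP ?_,
    ⟨(f none).comp fW, (hf none).comp hfW⟩, ⟨fun n => f none (y0 n), ?_⟩, ?_⟩
  · exact hE0.trans (Cardinal.mk_le_of_injective (hf none))
  · intro g h
    rw [← hfb none g, ← hfb none h]
    exact (Test.map_iff (f none) (hf none) (y0 : Fin 4 → (EE none).H) _ _).trans (hy0 g h)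
  · intro S hS hex
    let j : J0 := ⟨⟨S, hS⟩, hex⟩
    refine ⟨fun d => f (some j) (y j d), ?_⟩
    have := (Sol.of_injective (f (some j)) (hf (some j)) _).mpr (hEy j)
    convert this using 1
    ext d
    rcases d with d | d
    · simp only [Sum.elim_inl]
      exact (hfb (some j) d).symm
    · rfl

/-- the one-step extension inside a large symmetric group -/
theorem exists_next' {κ c : Cardinal.{u}} (hc : ℵ₀ ≤ c) (hκc : κ ≤ c)
    (hpow : ∀ ρ < κ, c ^ ρ ≤ c) (D : Type u) (hDc : #D ≤ c) {Ω : Type u} (hΩ : c < #Ω)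
    (r : Equiv.Perm Ω → Equiv.Perm Ω → Prop) (W : Type u) [Group W] (hW : #W ≤ c)
    (K : Subgroup (Equiv.Perm Ω)) (hfree : IsFree K) (hK : #K ≤ c) :
    ∃ L : Subgroup (Equiv.Perm Ω), K ≤ L ∧ IsFree L ∧ #L = c ∧ (∃ f : W →* L, Injective f) ∧
      (∃ y : Fin 4 → Equiv.Perm Ω, (∀ n, y n ∈ L) ∧
        ∀ g ∈ K, ∀ h ∈ K, (Test y g h ↔ ¬ r g h)) ∧
      (∀ S : Set (FreeGroup (K ⊕ D) × Bool), #S < κ →
        (∃ (H : Type u) (_ : Group H) (ι : K →* H) (y : D → H), Injective ι ∧
          Sol S (Sum.elim ι y)) →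
        ∃ y : D → Equiv.Perm Ω, (∀ d, y d ∈ L) ∧ Sol S (Sum.elim (fun k : K => (k : Equiv.Perm Ω)) y)) := by
  obtain ⟨P, _, b, hb, hP, ⟨fW, hfW⟩, ⟨Y, hY⟩, hsol⟩ := exists_step' hc hκc hpow D hDc W hW K hK
    (fun g h => r g h)
  obtain ⟨ρ, hρ, hρb, hρfree⟩ := exists_embed K hfree hc hΩ hK P hP.le b hb
  refine ⟨ρ.range, ?_, hρfree, ?_, ⟨ρ.rangeRestrict.comp fW,
    ((MonoidHom.rangeRestrict_injective_iff).mpr hρ).comp hfW⟩,
    ⟨fun o => ρ (Y o), fun d => ⟨_, rfl⟩, ?_⟩, ?_⟩
  · intro k hk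
    exact ⟨b ⟨k, hk⟩, hρb ⟨k, hk⟩⟩
  · rw [← hP]
    exact (Cardinal.mk_congr (MonoidHom.ofInjective hρ).toEquiv).symm
  · intro g hg h hh
    have hg' := hρb ⟨g, hg⟩
    have hh' := hρb ⟨h, hh⟩
    simp only at hg' hh'
    rw [← hY ⟨g, hg⟩ ⟨h, hh⟩, ← Test.map_iff ρ hρ, hg', hh']
  · intro S hS hex
    obtain ⟨y, hy⟩ := hsol S hS hex
    refine ⟨fun d => ρ (y d), fun d => ⟨_, rfl⟩, ?_⟩
    have := (Sol.of_injective ρ hρ _).mpr hy
    convert this using 1
    ext1 d
    rcases d with d | d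
    · simp only [Sum.elim_inl]
      exact (hρb d).symm
    · rfl

end Pool.Agent.KS6_46.KEC
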