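import Pool.Graph.R_pool_sql_team_seeded_843ab51a.V1132.KEC5
import Pool.Agent.KS6_46.KEC.Step

/-!
# The chain and the rigid group
-/

set_option autoImplicit false

open Cardinal Function

namespace Pool.Agent.KS6_46.KEC

open Pool.Agent.V1132.KEC

universe u

theorem exists_chain {Ω : Type u} {c : Cardinal.{u}} (hc : ℵ₀ ≤ c) (I : Type u) [LinearOrder I]
    [WellFoundedLT I] (hI : #I ≤ c) (Q : Subgroup (Equiv.Perm Ω) → Subgroup (Equiv.Perm Ω) → Prop)
    (hstep : ∀ K : Subgroup (Equiv.Perm Ω), IsFree K → #K ≤ c →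
      ∃ L, K ≤ L ∧ IsFree L ∧ #L ≤ c ∧ Q K L) :
    ∃ C N : I → Subgroup (Equiv.Perm Ω), (∀ i, IsFree (C i) ∧ #(C i) ≤ c) ∧
      (∀ i j, i ≤ j → C i ≤ C j) ∧ (∀ i, C i ≤ N i ∧ Q (C i) (N i)) ∧
      ∀ i j, i < j → N i ≤ C j := by
  classical
  let nx : Subgroup (Equiv.Perm Ω) → Subgroup (Equiv.Perm Ω) := fun K =>
    if h : IsFree K ∧ #K ≤ c then (hstep K h.1 h.2).choose else K
  have nx_spec : ∀ K, IsFree K → #K ≤ c → K ≤ nx K ∧ IsFree (nx K) ∧ #(nx K) ≤ c ∧ Q K (nx K) := by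
    intro K h1 h2
    have h : nx K = (hstep K h1 h2).choose := dif_pos ⟨h1, h2⟩
    rw [h]
    exact (hstep K h1 h2).choose_spec
  let C : I → Subgroup (Equiv.Perm Ω) :=
    WellFounded.fix (C := fun _ => Subgroup (Equiv.Perm Ω)) wellFounded_lt
      (fun i ih => ⨆ j : Set.Iio i, nx (ih j.1 j.2))
  have hCeq : ∀ i, C i = ⨆ j : Set.Iio i, nx (C j.1) := by
    intro i
    change WellFounded.fix _ _ i = _
    rw [WellFounded.fix_eq]
  have hNC : ∀ i j, i < j → nx (C i) ≤ C j := by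
    intro i j h
    rw [hCeq j]
    exact le_iSup (fun j : Set.Iio j => nx (C j.1)) ⟨i, h⟩
  have hfree : ∀ i, IsFree (C i) ∧ #(C i) ≤ c := by
    intro i
    induction i using WellFoundedLT.induction with
    | ind i ih =>
      rw [hCeq]
      have hmono : ∀ j k : I, j ≤ k → k < i → nx (C j) ≤ nx (C k) := by
        intro j k hjk hk
        rcases hjk.eq_or_lt with rfl | h
        · exact le_rfl
        · exact (hNC _ _ h).trans (nx_spec _ (ih k hk).1 (ih k hk).2).1
      refine free_iSup _ ?_ hc ((Cardinal.mk_set_le _).trans hI) ?_ ?_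
      · intro a b
        rcases le_total a.1 b.1 with h | h
        · exact ⟨b, hmono _ _ h b.2, le_rfl⟩
        · exact ⟨a, le_rfl, hmono _ _ h a.2⟩
      · intro j
        exact (nx_spec _ (ih j.1 j.2).1 (ih j.1 j.2).2).2.1
      · intro j
        exact (nx_spec _ (ih j.1 j.2).1 (ih j.1 j.2).2).2.2.1
  have hs := fun i => nx_spec (C i) (hfree i).1 (hfree i).2
  refine ⟨C, fun i => nx (C i), hfree, ?_, fun i => ⟨(hs i).1, (hs i).2.2.2⟩, hNC⟩
  intro i j h
  rcases h.eq_or_lt with rfl | h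
  · exact le_rfl
  · exact (hs i).1.trans (hNC _ _ h)

/-- a permutation preserving a well order is the identity -/
theorem eq_of_preserves {A : Type u} (r : A → A → Prop) [IsWellOrder A r] {B : Type u}
    (f : B → A) (hf : Injective f) (σ : Equiv.Perm B)
    (h : ∀ a b, r (f a) (f b) ↔ r (f (σ a)) (f (σ b))) : σ = 1 := by
  by_contra hne
  have hex : ∃ b, σ b ≠ b := by
    by_contra hcon
    push Not at hcon
    exact hne (Equiv.ext hcon)
  obtain ⟨m, hm⟩ := hex
  have hwf : WellFounded (fun a b : B => r (f a) (f b)) := InvImage.wf f (IsWellFounded.wf)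
  let m0 := hwf.min {b | σ b ≠ b} ⟨m, hm⟩
  have hm0 : σ m0 ≠ m0 := hwf.min_mem {b | σ b ≠ b} ⟨m, hm⟩
  have hmin : ∀ b, r (f b) (f m0) → σ b = b := by
    intro b hb
    by_contra hcon
    exact hwf.not_lt_min {b | σ b ≠ b} hcon hb
  rcases trichotomous_of r (f (σ m0)) (f m0) with h1 | h1 | h1
  · exact hm0 (σ.injective (hmin _ h1))
  · exact hm0 (hf h1)
  · have h2 : r (f (σ⁻¹ m0)) (f m0) := by
      rw [h]
      simpa using h1
    have h3 := hmin _ h2
    apply hm0
    have : m0 = σ⁻¹ m0 := by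
      simpa using h3
    nth_rewrite 1 [this]
    simp

theorem exists_group' {κ θ c : Cardinal.{u}} (hκ : κ.IsRegular) (hθ : θ.IsRegular) (hκθ : κ ≤ θ)
    (hθc : θ ≤ c) (hpow : ∀ ρ < κ, c ^ ρ ≤ c) {D : Type u} (hD : #D = κ)
    (W : Type u) [Group W] (hW : #W ≤ c) :
    ∃ (G : Type u) (_ : Group G), #G = c ∧ (∃ f : W →* G, Injective f) ∧
      (∃ y : θ.ord.ToType → Fin 4 → G, ∀ S : Set θ.ord.ToType, (∀ i, ∃ j ∈ S, i < j) →
        ∀ σ : MulAut G, (∀ j ∈ S, ∀ n, σ (y j n) = y j n) → σ = 1) ∧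
      (∀ S : Set (FreeGroup (G ⊕ D) × Bool), #S < κ →
        (∃ (H : Type u) (_ : Group H) (ι : G →* H) (y : D → H), Injective ι ∧
          Sol S (Sum.elim ι y)) →
        ∃ y : D → G, Sol S (Sum.elim id y)) := by
  have hc : ℵ₀ ≤ c := hθ.aleph0_le.trans hθc
  let Ω : Type u := Set c.out
  have hΩ : c < #Ω := by
    change c < #(Set c.out)
    rw [Cardinal.mk_set, Cardinal.mk_out]
    exact Cardinal.cantor _
  let I : Type u := θ.ord.ToType
  have hIθ : #I = θ := Cardinal.mk_ord_toType θ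
  have hI : #I ≤ c := by rw [hIθ]; exact hθc
  have hInon : Nonempty I := by
    rw [← Cardinal.mk_ne_zero_iff, hIθ]; exact hθ.ne_zero
  let r : Equiv.Perm Ω → Equiv.Perm Ω → Prop := WellOrderingRel
  let Q : Subgroup (Equiv.Perm Ω) → Subgroup (Equiv.Perm Ω) → Prop := fun K L =>
    #L = c ∧ (∃ f : W →* L, Injective f) ∧ (∃ y : Fin 4 → Equiv.Perm Ω, (∀ n, y n ∈ L) ∧
        ∀ g ∈ K, ∀ h ∈ K, (Test y g h ↔ ¬ r g h)) ∧
      (∀ S : Set (FreeGroup (K ⊕ D) × Bool), #S < κ →
        (∃ (H : Type u) (_ : Group H) (ι : K →* H) (y : D → H), Injective ι ∧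
          Sol S (Sum.elim ι y)) →
        ∃ y : D → Equiv.Perm Ω, (∀ d, y d ∈ L) ∧
          Sol S (Sum.elim (fun k : K => (k : Equiv.Perm Ω)) y))
  obtain ⟨C, N, hC, hmono, hN, hNC⟩ := exists_chain (Ω := Ω) hc I hI Q (by
    intro K h1 h2
    obtain ⟨L, h3, h4, h5, h6, h7⟩ := exists_next' hc (hκθ.trans hθc) hpow D
      (by rw [hD]; exact hκθ.trans hθc) hΩ r W hW K h1 h2
    exact ⟨L, h3, h4, h5.le, h5, h6, h7⟩)
  have hsucc : ∀ i : I, ∃ j, i < j := by
    intro i
    obtain ⟨j, hj⟩ := exists_bound hθ {i} (by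
      rw [Cardinal.mk_singleton]
      exact Cardinal.one_lt_aleph0.trans_le hθ.aleph0_le)
    exact ⟨j, hj i rfl⟩
  have hdir : Directed (· ≤ ·) C := by
    intro a b
    rcases le_total a b with h | h
    · exact ⟨b, hmono _ _ h, le_rfl⟩
    · exact ⟨a, le_rfl, hmono _ _ h⟩
  let G : Subgroup (Equiv.Perm Ω) := ⨆ i, C i
  have hG : IsFree G ∧ #G ≤ c :=
    free_iSup C hdir hc hI (fun i => (hC i).1) (fun i => (hC i).2)
  have hmem : ∀ g, g ∈ G ↔ ∃ i, g ∈ C i := fun g => Subgroup.mem_iSup_of_directed hdir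
  have hCG : ∀ i, C i ≤ G := fun i => le_iSup C i
  have hnG : ∀ i, N i ≤ G := by
    intro i
    obtain ⟨j, hj⟩ := hsucc i
    exact (hNC i j hj).trans (hCG j)
  refine ⟨G, inferInstance, le_antisymm hG.2 ?_, ?_, ?_, ?_⟩
  · obtain ⟨i⟩ := hInon
    rw [← (hN i).2.1]
    exact Cardinal.mk_le_of_injective (Subgroup.inclusion_injective (hnG i))
  · obtain ⟨i⟩ := hInon
    obtain ⟨f, hf⟩ := (hN i).2.2.1
    exact ⟨(Subgroup.inclusion (hnG i)).comp f, (Subgroup.inclusion_injective (hnG i)).comp hf⟩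
  · choose Y hYmem hYsep using fun i => (hN i).2.2.2.1
    refine ⟨fun i n => ⟨Y i n, hnG i (hYmem i n)⟩, ?_⟩
    intro S hS σ hσ
    have key : ∀ g h : G, r (g : Equiv.Perm Ω) h ↔ r (σ g : Equiv.Perm Ω) (σ h) := by
      intro g h
      obtain ⟨i1, hi1⟩ := (hmem _).mp g.2
      obtain ⟨i2, hi2⟩ := (hmem _).mp h.2
      obtain ⟨i3, hi3⟩ := (hmem _).mp (σ g).2
      obtain ⟨i4, hi4⟩ := (hmem _).mp (σ h).2
      obtain ⟨j, hjS, hj⟩ := hS (max (max i1 i2) (max i3 i4))
      have h1 : i1 ≤ j := ((le_max_left _ _).trans (le_max_left _ _)).trans hj.le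
      have h2 : i2 ≤ j := ((le_max_right _ _).trans (le_max_left _ _)).trans hj.le
      have h3 : i3 ≤ j := ((le_max_left _ _).trans (le_max_right _ _)).trans hj.le
      have h4 : i4 ≤ j := ((le_max_right _ _).trans (le_max_right _ _)).trans hj.le
      have e1 := hYsep j g (hmono _ _ h1 hi1) h (hmono _ _ h2 hi2)
      have e2 := hYsep j (σ g) (hmono _ _ h3 hi3) (σ h) (hmono _ _ h4 hi4)
      let yj : Fin 4 → G := fun n => ⟨Y j n, hnG j (hYmem j n)⟩
      have e3 : Test (Y j) (g : Equiv.Perm Ω) h ↔ Test yj g h :=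
        Test.map_iff G.subtype Subtype.val_injective yj g h
      have e4 : Test (Y j) (σ g : Equiv.Perm Ω) (σ h) ↔ Test yj (σ g) (σ h) :=
        Test.map_iff G.subtype Subtype.val_injective yj (σ g) (σ h)
      have e5 : Test yj (σ g) (σ h) ↔ Test yj g h := by
        have := Test.map_iff σ.toMonoidHom σ.injective yj g h
        rw [← this]
        have h6 : (fun n => σ.toMonoidHom (yj n)) = yj := funext fun n => hσ j hjS n
        rw [h6]
        rfl
      rw [← not_iff_not, ← e1, ← e2, e3, e4, e5]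
    have h1 := eq_of_preserves r (fun g : G => (g : Equiv.Perm Ω)) Subtype.val_injective
      σ.toEquiv key
    refine MulEquiv.ext fun g => ?_
    exact congrArg (fun q : Equiv.Perm G => q g) h1
  · intro S hS hex
    -- every word over `G` comes from a member of the chain
    have hword : ∀ w : FreeGroup (G ⊕ D), ∃ i, ∀ j (hij : i ≤ j), ∃ w' : FreeGroup (C j ⊕ D),
        FreeGroup.map (Sum.map (Subgroup.inclusion (hCG j)) id) w' = w := by
      intro w
      obtain ⟨i0⟩ := hInon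
      induction w using FreeGroup.induction_on with
      | C1 => exact ⟨i0, fun j _ => ⟨1, map_one _⟩⟩
      | of a =>
        rcases a with g | d
        · obtain ⟨i, hi⟩ := (hmem _).mp g.2
          exact ⟨i, fun j hij => ⟨FreeGroup.of (Sum.inl ⟨g, hmono _ _ hij hi⟩), by
            rw [FreeGroup.map.of]; rfl⟩⟩
        · exact ⟨i0, fun j _ => ⟨FreeGroup.of (Sum.inr d), by rw [FreeGroup.map.of]; rfl⟩⟩
      | inv_of a ha =>
        obtain ⟨i, hi⟩ := ha
        refine ⟨i, fun j hij => ?_⟩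
        obtain ⟨w', hw'⟩ := hi j hij
        exact ⟨w'⁻¹, by rw [map_inv, hw']⟩
      | mul v w hv hw =>
        obtain ⟨i, hi⟩ := hv
        obtain ⟨i', hi'⟩ := hw
        refine ⟨max i i', fun j hij => ?_⟩
        obtain ⟨v', hv'⟩ := hi j ((le_max_left _ _).trans hij)
        obtain ⟨w', hw'⟩ := hi' j ((le_max_right _ _).trans hij)
        exact ⟨v' * w', by rw [map_mul, hv', hw']⟩
    choose idx hidx using hword
    obtain ⟨i, hi⟩ := exists_bound hθ ((fun s : FreeGroup (G ⊕ D) × Bool => idx s.1) '' S)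
      (Cardinal.mk_image_le.trans_lt (hS.trans_le hκθ))
    have hi' : ∀ s : S, ∃ w' : FreeGroup (C i ⊕ D),
        FreeGroup.map (Sum.map (Subgroup.inclusion (hCG i)) id) w' = s.1.1 := by
      intro s
      exact hidx _ i (hi _ ⟨s.1, s.2, rfl⟩).le
    choose w' hw' using hi'
    let S' : Set (FreeGroup (C i ⊕ D) × Bool) := Set.range (fun s : S => (w' s, s.1.2))
    have hS' : #S' < κ := Cardinal.mk_range_le.trans_lt hS
    -- comparison of the two systems
    have key : ∀ (H : Type u) [Group H] (f : G → H) (y : D → H),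
        Sol S' (Sum.elim (fun k : C i => f (Subgroup.inclusion (hCG i) k)) y) ↔
          Sol S (Sum.elim f y) := by
      intro H _ f y
      have h1 : ∀ s : S, FreeGroup.lift (Sum.elim (fun k : C i => f (Subgroup.inclusion (hCG i) k)) y)
          (w' s) = FreeGroup.lift (Sum.elim f y) s.1.1 := by
        intro s
        rw [← hw' s]
        have h2 : (FreeGroup.lift (Sum.elim f y)).comp
            (FreeGroup.map (Sum.map (Subgroup.inclusion (hCG i)) id)) =
            FreeGroup.lift (Sum.elim (fun k : C i => f (Subgroup.inclusion (hCG i) k)) y) := by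
          ext a
          rcases a with a | a <;> simp
        exact (DFunLike.congr_fun h2 (w' s)).symm
      constructor
      · intro hs s hsS
        rw [← h1 ⟨s, hsS⟩]
        exact hs (w' ⟨s, hsS⟩, s.2) ⟨⟨s, hsS⟩, rfl⟩
      · rintro hs _ ⟨s, rfl⟩
        simp only
        rw [h1 s]
        exact hs s.1 s.2
    obtain ⟨H, _, ι, y, hι, hy⟩ := hex
    obtain ⟨y', hy'mem, hy'⟩ := (hN i).2.2.2.2 S' hS'
      ⟨H, inferInstance, ι.comp (Subgroup.inclusion (hCG i)), y,
        hι.comp (Subgroup.inclusion_injective (hCG i)), (key H ι y).mpr hy⟩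
    refine ⟨fun d => ⟨y' d, hnG i (hy'mem d)⟩, ?_⟩
    rw [← Sol.of_injective G.subtype Subtype.val_injective]
    have h3 := (key (Equiv.Perm Ω) (fun g : G => (g : Equiv.Perm Ω)) y').mp hy'
    convert h3 using 1
    ext1 d
    rcases d with d | d <;> rfl

end Pool.Agent.KS6_46.KEC
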