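import Pool.Graph.R_pool_sql_team_seeded_843ab51a.V1132.KEC3

/-!
# Coding an arbitrary binary relation on a group by four elements of an overgroup
-/

set_option autoImplicit false

open Cardinal Function
open scoped commutatorElement

namespace Pool.Agent.KS6_46.KEC

open Pool.Agent.V1132.KEC

universe u

/-- the test formula with four parameters -/
def Test {H : Type u} [Group H] (y : Fin 4 → H) (g h : H) : Prop :=
  Commute ⁅y 2 * (h * y 1 * h⁻¹) * (y 2)⁻¹, g * y 0 * g⁻¹⁆ (y 3)

theorem Test.map_iff {H L : Type u} [Group H] [Group L] (j : H →* L) (hj : Injective j)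
    (y : Fin 4 → H) (g h : H) : Test (fun n => j (y n)) (j g) (j h) ↔ Test y g h := by
  unfold Test Commute SemiconjBy
  simp only [← map_inv, ← map_mul, ← map_commutatorElement, hj.eq_iff]

section Perm

variable {K : Type u}

/-- fibrewise permutations of `K × K × Fin 3` -/
def fib2 (p : K → K → Equiv.Perm (Fin 3)) : Equiv.Perm (K × K × Fin 3) where
  toFun x := (x.1, x.2.1, p x.1 x.2.1 x.2.2)
  invFun x := (x.1, x.2.1, (p x.1 x.2.1)⁻¹ x.2.2)
  left_inv x := by simp
  right_inv x := by simp

theorem fib2_mul (p q : K → K → Equiv.Perm (Fin 3)) :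
    fib2 p * fib2 q = fib2 (fun a b => p a b * q a b) := by
  ext x <;> simp [fib2]

theorem fib2_inv (p : K → K → Equiv.Perm (Fin 3)) :
    (fib2 p)⁻¹ = fib2 (fun a b => (p a b)⁻¹) := by
  rw [inv_eq_iff_mul_eq_one, fib2_mul]
  ext x <;> simp [fib2]

theorem fib2_comm (p q : K → K → Equiv.Perm (Fin 3)) :
    ⁅fib2 p, fib2 q⁆ = fib2 (fun a b => ⁅p a b, q a b⁆) := by
  simp only [commutatorElement_def, fib2_inv, fib2_mul]

theorem fib2_commute_iff (p q : K → K → Equiv.Perm (Fin 3)) :
    Commute (fib2 p) (fib2 q) ↔ ∀ a b, Commute (p a b) (q a b) := by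
  constructor
  · intro h a b
    ext i
    have := congrArg (fun r : Equiv.Perm (K × K × Fin 3) => (r (a, b, i)).2.2) h.eq
    simp only [fib2_mul] at this
    simpa [fib2] using congrArg Fin.val this
  · intro h
    unfold Commute SemiconjBy
    rw [fib2_mul, fib2_mul]
    congr 1
    funext a b
    exact (h a b).eq

/-- the coordinate swap -/
def swp : Equiv.Perm (K × K × Fin 3) where
  toFun x := (x.2.1, x.1, x.2.2)
  invFun x := (x.2.1, x.1, x.2.2)
  left_inv x := rfl
  right_inv x := rfl

theorem swp_conj (p : K → K → Equiv.Perm (Fin 3)) :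
    swp * fib2 p * swp⁻¹ = fib2 (fun a b => p b a) := by
  rw [mul_inv_eq_iff_eq_mul]
  ext x <;> simp [swp, fib2]

variable [Group K]

/-- left multiplication on the first coordinate -/
def left2 : K →* Equiv.Perm (K × K × Fin 3) where
  toFun g := (Equiv.mulLeft g).prodCongr (Equiv.refl _)
  map_one' := by ext x <;> simp
  map_mul' g h := by ext x <;> simp [mul_assoc]

theorem left2_injective : Injective (left2 : K →* Equiv.Perm (K × K × Fin 3)) := by
  intro g h hgh
  have := congrArg (fun q : Equiv.Perm (K × K × Fin 3) => (q (1, 1, 0)).1) hgh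
  simpa [left2] using this

theorem left2_conj (g : K) (p : K → K → Equiv.Perm (Fin 3)) :
    left2 g * fib2 p * (left2 g)⁻¹ = fib2 (fun a b => p (g⁻¹ * a) b) := by
  rw [mul_inv_eq_iff_eq_mul]
  ext x <;> simp [left2, fib2]

end Perm

/-- every binary relation on `K` is coded by four elements of an overgroup -/
theorem exists_code (K : Type u) [Group K] (R : K → K → Prop) :
    ∃ (H : Type u) (_ : Group H) (ι : K →* H) (y : Fin 4 → H), Injective ι ∧
      ∀ g h : K, Test y (ι g) (ι h) ↔ ¬ R g h := by
  classical
  let s : Equiv.Perm (Fin 3) := Equiv.swap 0 1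
  let c : Equiv.Perm (Fin 3) := finRotate 3
  refine ⟨Equiv.Perm (K × K × Fin 3), inferInstance, left2,
    ![fib2 (fun a _ => if a = 1 then s else 1), fib2 (fun a _ => if a = 1 then c else 1), swp,
      fib2 (fun a b => if R a b then s else 1)], left2_injective, ?_⟩
  intro g h
  unfold Test
  simp only [Matrix.cons_val_zero, Matrix.cons_val_one, Matrix.cons_val]
  rw [left2_conj, left2_conj, swp_conj, fib2_comm, fib2_commute_iff]
  constructor
  · intro hc hR
    have h1 := hc g h
    simp only [inv_mul_cancel, if_true, if_pos hR] at h1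
    revert h1
    unfold Commute SemiconjBy
    simp only [commutatorElement_def, s, c]
    decide
  · intro hR a b
    by_cases hb : h⁻¹ * b = 1
    · by_cases ha : g⁻¹ * a = 1
      · have hb' : b = h := (inv_mul_eq_one.mp hb).symm
        have ha' : a = g := (inv_mul_eq_one.mp ha).symm
        subst hb' ha'
        rw [if_neg hR]
        exact Commute.one_right _
      · rw [if_neg ha, commutatorElement_one_right]
        exact Commute.one_left _
    · rw [if_neg hb, commutatorElement_one_left]
      exact Commute.one_left _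

end Pool.Agent.KS6_46.KEC
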