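import Pool.Agent.KS6_46.KEC.Need

/-!
# Existence theorems
-/

set_option autoImplicit false

open Cardinal Function

namespace Pool.Agent.KS6_46.KEC

open Pool.Agent.V1132.KEC

universe u

/-- the group with its rigidifying family -/
theorem exists_rigid {κ θ c : Cardinal.{u}} (hκ : κ.IsRegular) (hθ : θ.IsRegular) (hκθ : κ ≤ θ)
    (hθc : θ ≤ c) (hpow : ∀ ρ < κ, c ^ ρ ≤ c) (W : Type u) [Group W] (hW : #W ≤ c) :
    ∃ (G : Type u) (_ : Group G), IsExistentiallyClosed κ G ∧ #G = c ∧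
      (∃ f : W →* G, Injective f) ∧
      ∃ y : θ.ord.ToType → Fin 4 → G, ∀ S : Set θ.ord.ToType, (∀ i, ∃ j ∈ S, i < j) →
        ∀ σ : MulAut G, (∀ j ∈ S, ∀ n, σ (y j n) = y j n) → σ = 1 := by
  obtain ⟨G, _, hG, hf, hy, hsol⟩ := exists_group' hκ hθ hκθ hθc hpow (D := κ.out)
    (Cardinal.mk_out κ) W hW
  exact ⟨G, inferInstance, isExistentiallyClosed_of' hκ (Cardinal.mk_out κ).symm.le G hsol, hG, hf,
    hy⟩

theorem univ_cofinal {θ : Cardinal.{u}} (hθ : θ.IsRegular) :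
    ∀ i : θ.ord.ToType, ∃ j ∈ (Set.univ : Set θ.ord.ToType), i < j := by
  intro i
  obtain ⟨j, hj⟩ := exists_bound hθ {i} (by
    rw [Cardinal.mk_singleton]
    exact Cardinal.one_lt_aleph0.trans_le hθ.aleph0_le)
  exact ⟨j, trivial, hj i rfl⟩

/-- all admissible cardinals -/
theorem exists_base {κ c : Cardinal.{u}} (hκ : κ.IsRegular) (hκc : κ ≤ c)
    (hpow : ∀ ρ < κ, c ^ ρ ≤ c) (W : Type u) [Group W] (hW : #W ≤ c) :
    ∃ (G : Type u) (_ : Group G), IsExistentiallyClosed κ G ∧ #G = c ∧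
      (∃ f : W →* G, Injective f) ∧
      (∃ X : Set G, #X ≤ κ ∧ ∀ σ : MulAut G, (∀ x ∈ X, σ x = x) → σ = 1) ∧
      c ≤ #(MulAut G) ∧ #(MulAut G) ≤ c ^ κ := by
  obtain ⟨G, _, hec, hG, hf, y, hy⟩ := exists_rigid hκ hκ le_rfl hκc hpow W hW
  have hc : ℵ₀ ≤ #G := by rw [hG]; exact hκ.aleph0_le.trans hκc
  refine ⟨G, inferInstance, hec, hG, hf, ⟨Set.range fun p : κ.ord.ToType × Fin 4 => y p.1 p.2, ?_, ?_⟩,
    ?_, ?_⟩
  · refine Cardinal.mk_range_le.trans ?_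
    rw [Cardinal.mk_prod, Cardinal.mk_ord_toType]
    simp only [Cardinal.lift_id, Cardinal.mk_fin, Cardinal.lift_natCast, Cardinal.lift_uzero]
    exact Cardinal.mul_le_of_le hκ.aleph0_le le_rfl
      ((Cardinal.natCast_lt_aleph0 (n := 4)).le.trans hκ.aleph0_le)
  · intro σ hσ
    exact hy Set.univ (univ_cofinal hκ) σ (fun j _ n => hσ _ ⟨(j, n), rfl⟩)
  · rw [← hG]
    exact mk_le_mk_mulAut hκ.aleph0_le hec
  · have := mk_mulAut_le_power hc y (fun σ hσ => hy Set.univ (univ_cofinal hκ) σ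
      (fun j _ n => hσ j n))
    rwa [hG, Cardinal.mk_ord_toType] at this

/-- cardinals above a regular `θ` of larger exponent -/
theorem exists_exact {κ θ c : Cardinal.{u}} (hκ : κ.IsRegular) (hθ : θ.IsRegular) (hκθ : κ ≤ θ)
    (hθc : θ ≤ c) (hpow : ∀ ρ < κ, c ^ ρ ≤ c) (hcof : c.ord.cof < θ) (hμ : ∀ μ < c, μ ^ θ ≤ c)
    (W : Type u) [Group W] (hW : #W ≤ c) :
    ∃ (G : Type u) (_ : Group G), IsExistentiallyClosed κ G ∧ #G = c ∧
      (∃ f : W →* G, Injective f) ∧ #(MulAut G) = c := by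
  obtain ⟨G, _, hec, hG, hf, y, hy⟩ := exists_rigid hκ hθ hκθ hθc hpow W hW
  have hc : ℵ₀ ≤ #G := by rw [hG]; exact hθ.aleph0_le.trans hθc
  refine ⟨G, inferInstance, hec, hG, hf, le_antisymm ?_ ?_⟩
  · rw [← hG]
    exact mk_mulAut_le_of_cof hθ hc (by rw [hG]; exact hcof) (by rw [hG]; exact hμ) y hy
  · rw [← hG]
    exact mk_le_mk_mulAut hκ.aleph0_le hec

theorem exists_of_power_eq {κ c : Cardinal.{u}} (hκ : κ.IsRegular) (hκc : κ ≤ c)
    (hpow : c ^ κ = c) (W : Type u) [Group W] (hW : #W ≤ c) :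
    ∃ (G : Type u) (_ : Group G), IsExistentiallyClosed κ G ∧ #G = c ∧
      (∃ f : W →* G, Injective f) ∧ #(MulAut G) = c := by
  have hc0 : c ≠ 0 := (hκ.pos.trans_le hκc).ne'
  obtain ⟨G, _, hec, hG, hf, _, h1, h2⟩ := exists_base hκ hκc (fun ρ hρ =>
    (Cardinal.power_le_power_left hc0 hρ.le).trans hpow.le) W hW
  exact ⟨G, inferInstance, hec, hG, hf, le_antisymm (h2.trans hpow.le) h1⟩

/-- the case distinction under a bound for the powers of smaller cardinals -/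
theorem exists_of_cof {κ c : Cardinal.{u}} (hκ : κ.IsRegular) (hκc : κ < c)
    (hcof : κ ≤ c.ord.cof) (h1 : ∀ μ < c, ∀ ρ < c, μ ^ ρ ≤ c) (W : Type u) [Group W]
    (hW : #W ≤ c) :
    ∃ (G : Type u) (_ : Group G), IsExistentiallyClosed κ G ∧ #G = c ∧
      (∃ f : W →* G, Injective f) ∧ #(MulAut G) = c := by
  have hc : ℵ₀ ≤ c := hκ.aleph0_le.trans hκc.le
  have hc0 : c ≠ 0 := (hκ.pos.trans_le hκc.le).ne'
  rcases hcof.lt_or_eq with hlt | heq
  · refine exists_of_power_eq hκ hκc.le ?_ W hW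
    apply le_antisymm
    · exact power_le_of_lt_cof hc hlt (fun μ hμ => h1 μ hμ κ hκc)
    · calc c = c ^ (1 : Cardinal) := by rw [Cardinal.power_one]
        _ ≤ c ^ κ := Cardinal.power_le_power_left hc0 (Cardinal.one_lt_aleph0.le.trans hκ.aleph0_le)
  · have hsucc : Order.succ κ < c := by
      apply lt_of_le_of_ne (Order.succ_le_of_lt hκc)
      intro h
      have h2 : (Order.succ κ).IsRegular := Cardinal.isRegular_succ hκ.aleph0_le
      have h3 := h2.cof_ord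
      rw [h, ← heq] at h3
      exact absurd h3 hκc.ne
    refine exists_exact hκ (Cardinal.isRegular_succ hκ.aleph0_le) (Order.le_succ κ) hsucc.le ?_ ?_ ?_
      W hW
    · intro ρ hρ
      exact power_le_of_lt_cof hc (by rw [← heq]; exact hρ) (fun μ hμ => h1 μ hμ ρ (hρ.trans hκc))
    · rw [← heq]
      exact Order.lt_succ κ
    · intro μ hμ
      exact h1 μ hμ _ hsucc

theorem cof_of_ec {κ : Cardinal.{u}} (hκ : ℵ₀ ≤ κ) {G : Type u} [Group G]
    (h : IsExistentiallyClosed κ G) : κ ≤ (#G).ord.cof := by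
  by_contra hcon
  rw [not_le] at hcon
  have h1 := power_le_of_ec hκ h _ hcon
  exact absurd (Cardinal.lt_power_cof_ord (aleph0_le_of_ec hκ h)) (not_lt.mpr h1)

theorem gch_power {c : Cardinal.{u}} (hc : ℵ₀ ≤ c)
    (hgch : ∀ μ : Cardinal.{u}, ℵ₀ ≤ μ → 2 ^ μ = Order.succ μ) :
    ∀ μ < c, ∀ ρ < c, μ ^ ρ ≤ c := by
  intro μ hμ ρ hρ
  let m : Cardinal.{u} := max (max μ ρ) ℵ₀
  rcases lt_or_ge (max μ ρ) ℵ₀ with h | h
  · have h1 : μ ^ ρ < ℵ₀ := Cardinal.power_lt_aleph0 ((le_max_left _ _).trans_lt h)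
      ((le_max_right _ _).trans_lt h)
    exact h1.le.trans hc
  · set m := max μ ρ with hm
    have hmc : m < c := max_lt hμ hρ
    calc μ ^ ρ ≤ m ^ ρ := Cardinal.power_le_power_right (le_max_left _ _)
      _ ≤ m ^ m := Cardinal.power_le_power_left (Cardinal.aleph0_pos.trans_le h).ne' (le_max_right _ _)
      _ = 2 ^ m := Cardinal.power_self_eq h
      _ = Order.succ m := hgch m h
      _ ≤ c := Order.succ_le_of_lt hmc

theorem strongLimit_power {c : Cardinal.{u}} (hc : c.IsStrongLimit) :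
    ∀ μ < c, ∀ ρ < c, μ ^ ρ ≤ c := by
  intro μ hμ ρ hρ
  rcases lt_or_ge (max μ ρ) ℵ₀ with h | h
  · have h1 : μ ^ ρ < ℵ₀ := Cardinal.power_lt_aleph0 ((le_max_left _ _).trans_lt h)
      ((le_max_right _ _).trans_lt h)
    exact h1.le.trans hc.aleph0_le
  · set m := max μ ρ with hm
    have hmc : m < c := max_lt hμ hρ
    calc μ ^ ρ ≤ m ^ ρ := Cardinal.power_le_power_right (le_max_left _ _)
      _ ≤ m ^ m := Cardinal.power_le_power_left (Cardinal.aleph0_pos.trans_le h).ne' (le_max_right _ _)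
      _ = 2 ^ m := Cardinal.power_self_eq h
      _ ≤ c := (hc.two_power_lt hmc).le

end Pool.Agent.KS6_46.KEC
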