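import Pool.Agent.KS6_46.KEC.Reduce

/-!
# Necessary conditions: `#G ^ ρ ≤ #G` for `ρ < κ`
-/

set_option autoImplicit false

open Cardinal Function

namespace Pool.Agent.KS6_46.KEC

open Pool.Agent.V1132.KEC

universe u

theorem conj_ext (P M : Type u) [Group P] [Group M] (a b : M →* P) (ha : Injective a)
    (hb : Injective b) : ∃ (H : Type u) (_ : Group H) (j : P →* H) (t : H), Injective j ∧
      ∀ m, t * j (a m) * t⁻¹ = j (b m) := by
  let φ : a.range ≃* b.range := (MonoidHom.ofInjective ha).symm.trans (MonoidHom.ofInjective hb)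
  refine ⟨HNNExtension P a.range b.range φ, inferInstance, HNNExtension.of, HNNExtension.t,
    HNNExtension.of_injective _, fun m => ?_⟩
  have h := HNNExtension.t_mul_of (φ := φ) ⟨a m, m, rfl⟩
  have h2 : (φ ⟨a m, m, rfl⟩ : P) = b m := by
    have h3 : (MonoidHom.ofInjective ha).symm ⟨a m, m, rfl⟩ = m := by
      rw [MulEquiv.symm_apply_eq]
      rfl
    change ((MonoidHom.ofInjective hb) ((MonoidHom.ofInjective ha).symm ⟨a m, m, rfl⟩) : P) = b m
    rw [h3]
    rfl
  rw [mul_inv_eq_iff_eq_mul, ← h2]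
  exact h

theorem aleph0_le_of_ec {κ : Cardinal.{u}} (hκ : ℵ₀ ≤ κ) {G : Type u} [Group G]
    (h : IsExistentiallyClosed κ G) : ℵ₀ ≤ #G := by
  by_contra hcon
  rw [not_le] at hcon
  let v : Monoid.Coprod G (FreeGroup PUnit.{u+1}) := Monoid.Coprod.inr (FreeGroup.of PUnit.unit)
  obtain ⟨x, hx⟩ := h PUnit
    (Set.range fun g : G => (v * (Monoid.Coprod.inl g)⁻¹, false))
    (Cardinal.mk_range_le.trans_lt (hcon.trans_le hκ))
    ⟨G × FreeGroup PUnit.{u+1}, inferInstance, MonoidHom.inl _ _, fun x y h => by simpa using h,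
      fun a => (1, FreeGroup.of a), by
      rintro _ ⟨g, rfl⟩
      simp only [Bool.false_eq_true, iff_false]
      intro h1
      have h2 := congrArg Prod.snd h1
      simp [v] at h2⟩
  have h1 := hx _ ⟨x PUnit.unit, rfl⟩
  simp only [Bool.false_eq_true, iff_false] at h1
  apply h1
  simp [v]

theorem exists_free_of_ec {κ : Cardinal.{u}} (hκ : ℵ₀ < κ) {G : Type u} [Group G]
    (h : IsExistentiallyClosed κ G) (D : Type u) [Nonempty D] (hD : #D < κ) :
    ∃ e : D → G, Injective (FreeGroup.lift e) := by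
  obtain ⟨x, hx⟩ := h D
    (Set.range fun w : {w : FreeGroup D // w ≠ 1} =>
      ((Monoid.Coprod.inr w.1 : Monoid.Coprod G (FreeGroup D)), false))
    (Cardinal.mk_range_le.trans_lt ((Cardinal.mk_subtype_le _).trans_lt (by
      rw [Cardinal.mk_freeGroup]
      exact max_lt hD hκ)))
    ⟨G × FreeGroup D, inferInstance, MonoidHom.inl _ _, fun x y h => by simpa using h,
      fun a => (1, FreeGroup.of a), by
      rintro _ ⟨w, rfl⟩
      simp only [Bool.false_eq_true, iff_false, Monoid.Coprod.lift_apply_inr]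
      intro h1
      have h2 : (FreeGroup.lift fun a => ((1 : G), FreeGroup.of a)) =
          MonoidHom.inr G (FreeGroup D) := by
        ext a <;> simp
      rw [h2] at h1
      exact w.2 (by simpa using h1)⟩
  refine ⟨x, ?_⟩
  rw [injective_iff_map_eq_one]
  intro w hw
  by_contra hne
  have h1 := hx _ ⟨⟨w, hne⟩, rfl⟩
  simp only [Bool.false_eq_true, iff_false, Monoid.Coprod.lift_apply_inr] at h1
  exact h1 hw

theorem power_le_of_ec {κ : Cardinal.{u}} (hκ : ℵ₀ ≤ κ) {G : Type u} [Group G]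
    (h : IsExistentiallyClosed κ G) (ρ : Cardinal.{u}) (hρ : ρ < κ) : #G ^ ρ ≤ #G := by
  have hG := aleph0_le_of_ec hκ h
  rcases lt_or_ge ρ ℵ₀ with hfin | hinf
  · obtain ⟨n, rfl⟩ := Cardinal.lt_aleph0.mp hfin
    rw [Cardinal.power_natCast]
    exact Cardinal.power_nat_le hG
  let D : Type u := ρ.out
  have hD : #D = ρ := Cardinal.mk_out ρ
  haveI : Nonempty D := by
    rw [← Cardinal.mk_ne_zero_iff, hD]
    exact (Cardinal.aleph0_pos.trans_le hinf).ne'
  obtain ⟨e, he⟩ := exists_free_of_ec (hinf.trans_lt hρ) h D (by rw [hD]; exact hρ)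
  have key : ∀ g : D → G, ∃ s t : G, ∀ d, g d = t * e d * t⁻¹ * (s * e d * s⁻¹)⁻¹ := by
    intro g
    -- the overgroup
    let P := Monoid.Coprod G (FreeGroup D)
    let a : FreeGroup D →* P := Monoid.Coprod.inl.comp (FreeGroup.lift e)
    let b : FreeGroup D →* P := Monoid.Coprod.inr
    let b' : FreeGroup D →* P := FreeGroup.lift fun d =>
      Monoid.Coprod.inl (g d) * Monoid.Coprod.inr (FreeGroup.of d)
    have ha : Injective a := Monoid.Coprod.inl_injective.comp he
    have hb : Injective b := Monoid.Coprod.inr_injective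
    have hb' : Injective b' := by
      have h1 : (Monoid.Coprod.snd : P →* FreeGroup D).comp b' = MonoidHom.id _ := by
        ext d
        simp [b']
      intro x y hxy
      have h2 := congrArg (Monoid.Coprod.snd : P →* FreeGroup D) hxy
      have h3 := DFunLike.congr_fun h1 x
      have h4 := DFunLike.congr_fun h1 y
      simp only [MonoidHom.comp_apply, MonoidHom.id_apply] at h3 h4
      rw [h3, h4] at h2
      exact h2
    obtain ⟨H1, _, j1, s, hj1, hs⟩ := conj_ext P (FreeGroup D) a b ha hb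
    obtain ⟨H2, _, j2, t, hj2, ht⟩ := conj_ext H1 (FreeGroup D) (j1.comp a) (j1.comp b')
      (hj1.comp ha) (hj1.comp hb')
    let V : Type u := ULift.{u} Bool
    let C := Monoid.Coprod G (FreeGroup V)
    let vs : C := Monoid.Coprod.inr (FreeGroup.of ⟨false⟩)
    let vt : C := Monoid.Coprod.inr (FreeGroup.of ⟨true⟩)
    let w : D → C := fun d => vt * Monoid.Coprod.inl (e d) * vt⁻¹ *
      (vs * Monoid.Coprod.inl (e d) * vs⁻¹)⁻¹ * (Monoid.Coprod.inl (g d))⁻¹
    have hw : ∀ (H : Type u) [Group H] (ι : G →* H) (x : V → H) (d : D),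
        Monoid.Coprod.lift ι (FreeGroup.lift x) (w d) =
          x ⟨true⟩ * ι (e d) * (x ⟨true⟩)⁻¹ * (x ⟨false⟩ * ι (e d) * (x ⟨false⟩)⁻¹)⁻¹ *
            (ι (g d))⁻¹ := by
      intro H _ ι x d
      simp [w, vs, vt]
    obtain ⟨x, hx⟩ := h V (Set.range fun d : D => (w d, true))
      (Cardinal.mk_range_le.trans_lt (by rw [hD]; exact hρ))
      ⟨H2, inferInstance, (j2.comp j1).comp Monoid.Coprod.inl,
        (hj2.comp hj1).comp Monoid.Coprod.inl_injective,
        fun v => if v.down then t else j2 s, by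
        rintro _ ⟨d, rfl⟩
        simp only [iff_true]
        rw [hw]
        have h1 := hs (FreeGroup.of d)
        have h2 := ht (FreeGroup.of d)
        simp only [a, b, b', MonoidHom.comp_apply, FreeGroup.lift_apply_of] at h1 h2
        simp only [MonoidHom.comp_apply, if_true, Bool.false_eq_true, if_false]
        rw [h2, ← map_inv j2 s, ← map_mul j2, ← map_mul j2, h1]
        simp only [map_mul]
        group⟩
    refine ⟨x ⟨false⟩, x ⟨true⟩, fun d => ?_⟩
    have h1 := hx _ ⟨d, rfl⟩
    simp only [iff_true] at h1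
    rw [hw] at h1
    simp only [MonoidHom.id_apply] at h1
    exact (mul_inv_eq_one.mp h1).symm
  choose s t hst using key
  have hinj : Injective (fun g : D → G => (s g, t g)) := by
    intro g g' hgg
    simp only [Prod.mk.injEq] at hgg
    funext d
    rw [hst g d, hst g' d, hgg.1, hgg.2]
  have h1 := Cardinal.mk_le_of_injective hinj
  rw [← Cardinal.power_def, hD, Cardinal.mk_prod, Cardinal.lift_id, Cardinal.mul_eq_self hG] at h1
  exact h1

/-- a set of fewer than `κ` elements of a `κ`-existentially closed group is centralised by a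
non-central element -/
theorem exists_centralizer {κ : Cardinal.{u}} (hκ : ℵ₀ ≤ κ) {G : Type u} [Group G]
    (h : IsExistentiallyClosed κ G) (X : Set G) (hX : #X < κ) :
    ∃ z y : G, (∀ x ∈ X, z * x * z⁻¹ = x) ∧ z * y * z⁻¹ ≠ y := by
  let V : Type u := ULift.{u} Bool
  let C := Monoid.Coprod G (FreeGroup V)
  let vz : C := Monoid.Coprod.inr (FreeGroup.of ⟨false⟩)
  let vy : C := Monoid.Coprod.inr (FreeGroup.of ⟨true⟩)
  let w : Option X → C × Bool := fun o => o.elim (vz * vy * vz⁻¹ * vy⁻¹, false)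
    fun x => (vz * Monoid.Coprod.inl x.1 * vz⁻¹ * (Monoid.Coprod.inl x.1)⁻¹, true)
  let Q : Type u := ULift.{u} (Equiv.Perm (Fin 3))
  obtain ⟨x, hx⟩ := h V (Set.range w)
    (Cardinal.mk_range_le.trans_lt (by
      rw [Cardinal.mk_option]
      exact Cardinal.add_lt_of_lt hκ hX (Cardinal.one_lt_aleph0.trans_le hκ)))
    ⟨G × Q, inferInstance, MonoidHom.inl _ _, fun x y h => by simpa using h,
      fun a => if a.down then (1, ⟨Equiv.swap 0 1⟩) else (1, ⟨finRotate 3⟩), by
      rintro _ ⟨o, rfl⟩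
      rcases o with _ | a
      · simp only [w, vz, vy, Option.elim_none, map_mul, map_inv, Monoid.Coprod.lift_apply_inr,
          FreeGroup.lift_apply_of, Bool.false_eq_true, iff_false, if_true, if_false]
        intro h1
        have h2 := congrArg ULift.down (congrArg Prod.snd h1)
        have h3 : finRotate 3 * Equiv.swap 0 1 * (finRotate 3)⁻¹ * (Equiv.swap 0 1)⁻¹ =
          (1 : Equiv.Perm (Fin 3)) := h2
        revert h3
        decide
      · simp [w, vz]⟩
  refine ⟨x ⟨false⟩, x ⟨true⟩, ?_, ?_⟩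
  · intro a ha
    have h1 := hx _ ⟨some ⟨a, ha⟩, rfl⟩
    simp only [w, vz, Option.elim_some, iff_true, map_mul, map_inv, Monoid.Coprod.lift_apply_inr,
      Monoid.Coprod.lift_apply_inl, FreeGroup.lift_apply_of, MonoidHom.id_apply] at h1
    exact mul_inv_eq_one.mp h1
  · have h1 := hx _ ⟨none, rfl⟩
    simp only [w, vz, vy, Option.elim_none, map_mul, map_inv, Monoid.Coprod.lift_apply_inr,
      FreeGroup.lift_apply_of, Bool.false_eq_true, iff_false] at h1
    intro h2
    exact h1 (mul_inv_eq_one.mpr h2)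

/-- no set of fewer than `κ` elements is a base -/
theorem le_mk_base {κ : Cardinal.{u}} (hκ : ℵ₀ ≤ κ) {G : Type u} [Group G]
    (h : IsExistentiallyClosed κ G) (X : Set G)
    (hX : ∀ σ : MulAut G, (∀ x ∈ X, σ x = x) → σ = 1) : κ ≤ #X := by
  by_contra hcon
  rw [not_le] at hcon
  obtain ⟨z, y, hz, hy⟩ := exists_centralizer hκ h X hcon
  have h1 := hX (MulAut.conj z) (fun x hx => by rw [MulAut.conj_apply]; exact hz x hx)
  apply hy
  rw [← MulAut.conj_apply, h1]
  rfl

theorem power_le_of_lt_cof {c ρ : Cardinal.{u}} (hc : ℵ₀ ≤ c) (hρ : ρ < c.ord.cof)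
    (h : ∀ μ < c, μ ^ ρ ≤ c) : c ^ ρ ≤ c := by
  let A : Type u := c.ord.ToType
  let B : A → Set (ρ.out → A) := fun x => {f | ∀ d, f d < x}
  have hB : (⋃ x, B x) = Set.univ := by
    ext f
    simp only [Set.mem_iUnion, Set.mem_univ, iff_true]
    have h1 : ¬ IsCofinal (Set.range f) := by
      intro h2
      have h3 := Order.cof_le h2
      rw [Ordinal.cof_toType] at h3
      exact absurd (hρ.trans_le (h3.trans Cardinal.mk_range_le)) (by simp)
    rw [not_isCofinal_iff] at h1
    obtain ⟨x, hx⟩ := h1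
    exact ⟨x, fun d => hx _ ⟨d, rfl⟩⟩
  have hBc : ∀ x, #(B x) ≤ c := by
    intro x
    refine (Cardinal.mk_le_of_injective (f := fun f : B x => fun d => (⟨f.1 d, f.2 d⟩ : Set.Iio x))
      ?_).trans ?_
    · intro f g hfg
      apply Subtype.ext
      funext d
      exact congrArg Subtype.val (congrFun hfg d)
    · rw [← Cardinal.power_def, Cardinal.mk_out]
      exact h _ (Cardinal.mk_Iio_toType_ord_lt x)
  calc c ^ ρ = #(ρ.out → A) := by
        rw [← Cardinal.power_def, Cardinal.mk_out, Cardinal.mk_ord_toType]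
    _ = #(⋃ x, B x) := by rw [hB, Cardinal.mk_univ]
    _ ≤ #A * c := Cardinal.mk_iUnion_le_sum_mk.trans
        ((Cardinal.sum_le_mk_mul_iSup _).trans (mul_le_mul' le_rfl (ciSup_le' hBc)))
    _ = c := by rw [Cardinal.mk_ord_toType, Cardinal.mul_eq_self hc]

end Pool.Agent.KS6_46.KEC
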