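import Pool.Agent.KS6_46.KEC.Chain

/-!
# Existential closedness from systems in `FreeGroup (G ⊕ D)`, and bounds for `Aut G`
-/

set_option autoImplicit false

open Cardinal Function

namespace Pool.Agent.KS6_46.KEC

open Pool.Agent.V1132.KEC

universe u

theorem isExistentiallyClosed_of' {κ : Cardinal.{u}} (hκ : κ.IsRegular) {D : Type u}
    (hκD : κ ≤ #D) (G : Type u) [Group G]
    (h : ∀ S : Set (FreeGroup (G ⊕ D) × Bool), #S < κ →
        (∃ (H : Type u) (_ : Group H) (ι : G →* H) (y : D → H), Injective ι ∧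
          Sol S (Sum.elim ι y)) →
        ∃ y : D → G, Sol S (Sum.elim id y)) : IsExistentiallyClosed κ G := by
  classical
  intro X S hS hex
  choose lw hlw using fun s : S => pres_surjective G X s.1.1
  choose T hT hTs using fun s : S => exists_support (lw s)
  let U : Set X := ⋃ s, Sum.inr ⁻¹' (T s)
  have hU : #U < κ := by
    rw [Cardinal.card_iUnion_lt_iff_forall_of_isRegular hκ hS]
    intro s
    exact (Cardinal.lt_aleph0_iff_set_finite.mpr
      ((hT s).preimage Sum.inr_injective.injOn)).trans_le hκ.aleph0_le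
  obtain ⟨e⟩ : Nonempty (U ↪ D) := by
    rw [← Cardinal.le_def]
    exact hU.le.trans hκD
  obtain ⟨d0⟩ : Nonempty D := by
    rw [← Cardinal.mk_ne_zero_iff]
    exact (hκ.pos.trans_le hκD).ne'
  let τ : G ⊕ X → G ⊕ D := Sum.map id (fun a => if h : a ∈ U then e ⟨a, h⟩ else d0)
  let R : Set (FreeGroup (G ⊕ D) × Bool) :=
    Set.range (fun s : S => (FreeGroup.map τ (lw s), s.1.2))
  have hR : #R < κ := Cardinal.mk_range_le.trans_lt hS
  -- the comparison
  have key : ∀ (H : Type u) [Group H] (ι : G →* H) (x : X → H) (y : D → H),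
      (∀ (a : X) (h : a ∈ U), y (e ⟨a, h⟩) = x a) →
      (Sol R (Sum.elim ι y) ↔ Solves S ι x) := by
    intro H _ ι x y hxy
    have h1 : ∀ s : S, FreeGroup.lift (Sum.elim ι y) (FreeGroup.map τ (lw s)) =
        Monoid.Coprod.lift ι (FreeGroup.lift x) s.1.1 := by
      intro s
      rw [← hlw s, lift_pres]
      have h2 : FreeGroup.lift (Sum.elim ι y) (FreeGroup.map τ (lw s)) =
          FreeGroup.lift (fun a => Sum.elim ι y (τ a)) (lw s) := by
        have h3 : (FreeGroup.lift (Sum.elim ι y)).comp (FreeGroup.map τ) =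
            FreeGroup.lift (fun a => Sum.elim ι y (τ a)) := by
          ext a; simp
        exact DFunLike.congr_fun h3 _
      rw [h2]
      apply hTs s
      intro a ha
      rcases a with g | a
      · simp [τ]
      · have haU : a ∈ U := Set.mem_iUnion.mpr ⟨s, ha⟩
        simp [τ, haU, hxy a haU]
    constructor
    · intro hs s hsS
      rw [← h1 ⟨s, hsS⟩]
      exact hs (FreeGroup.map τ (lw ⟨s, hsS⟩), s.2) ⟨⟨s, hsS⟩, rfl⟩
    · rintro hs _ ⟨s, rfl⟩
      simp only
      rw [h1 s]
      exact hs s.1 s.2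
  obtain ⟨H, _, ι, hι, x, hx⟩ := hex
  obtain ⟨y', hy'⟩ := h R hR ⟨H, inferInstance, ι,
    Function.extend e (fun u => x u.1) 1, hι, (key H ι x _ (by
      intro a ha
      rw [e.injective.extend_apply])).mpr hx⟩
  refine ⟨fun a => if h : a ∈ U then y' (e ⟨a, h⟩) else 1,
    (key G (MonoidHom.id G) _ y' ?_).mp hy'⟩
  intro a ha
  simp [ha]

theorem mk_four_le {G : Type u} (hc : ℵ₀ ≤ #G) : #(Fin 4 → G) ≤ #G := by
  have : #(Fin 4 → G) = #G ^ ((4 : ℕ) : Cardinal) := by simp
  rw [this, Cardinal.power_natCast]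
  exact Cardinal.power_nat_le hc

/-- the first bound: at most `#G ^ θ` automorphisms -/
theorem mk_mulAut_le_power {G : Type u} [Group G] {I : Type u}
    (hc : ℵ₀ ≤ #G) (y : I → Fin 4 → G)
    (hy : ∀ σ : MulAut G, (∀ j n, σ (y j n) = y j n) → σ = 1) :
    #(MulAut G) ≤ #G ^ #I := by
  let F : MulAut G → (I → Fin 4 → G) := fun σ j n => σ (y j n)
  have hF : Injective F := by
    intro σ τ h
    have h1 : τ⁻¹ * σ = 1 := by
      apply hy
      intro j n
      have h2 : σ (y j n) = τ (y j n) := congrFun (congrFun h j) n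
      rw [MulAut.mul_apply, h2]
      simp
    rw [inv_mul_eq_one] at h1
    exact h1.symm
  refine (Cardinal.mk_le_of_injective hF).trans ?_
  rw [← Cardinal.power_def]
  exact Cardinal.power_le_power_right (mk_four_le hc)

/-- the second bound -/
theorem mk_mulAut_le_of_cof {G : Type u} [Group G] {θ : Cardinal.{u}} (hθ : θ.IsRegular)
    (hc : ℵ₀ ≤ #G) (hcof : (#G).ord.cof < θ) (hpow : ∀ μ < #G, μ ^ θ ≤ #G)
    (y : θ.ord.ToType → Fin 4 → G)
    (hy : ∀ S : Set θ.ord.ToType, (∀ i, ∃ j ∈ S, i < j) →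
        ∀ σ : MulAut G, (∀ j ∈ S, ∀ n, σ (y j n) = y j n) → σ = 1) :
    #(MulAut G) ≤ #G := by
  classical
  obtain ⟨e⟩ : Nonempty (G ≃ (#G).ord.ToType) := by
    rw [← Cardinal.eq, Cardinal.mk_ord_toType]
  -- a short cofinal family
  obtain ⟨A, hA, hAc⟩ := Order.exists_cof_eq (#G).ord.ToType
  rw [Ordinal.cof_toType] at hAc
  let B : A → Set (MulAut G) := fun a => {σ | ∃ S : Set θ.ord.ToType, (∀ i, ∃ j ∈ S, i < j) ∧
    ∀ i ∈ S, ∀ n, e (σ (y i n)) ≤ a}
  have hB : ∀ σ, ∃ a, σ ∈ B a := by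
    intro σ
    have h1 : ∀ i, ∃ a : A, ∀ n, e (σ (y i n)) ≤ a := by
      intro i
      obtain ⟨a, ha, hle⟩ := hA ((Finset.univ.image fun n => e (σ (y i n))).max' ⟨_,
        Finset.mem_image_of_mem _ (Finset.mem_univ 0)⟩)
      refine ⟨⟨a, ha⟩, fun n => le_trans (Finset.le_max' _ _ ?_) hle⟩
      exact Finset.mem_image_of_mem _ (Finset.mem_univ n)
    choose a ha using h1
    by_contra hcon
    have h2 : ∀ x : A, ∃ b, ∀ j, a j = x → j ≤ b := by
      intro x
      by_contra h3
      push Not at h3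
      apply hcon
      refine ⟨x, {j | a j = x}, fun i => ?_, ?_⟩
      · obtain ⟨j, hj, hij⟩ := h3 i
        exact ⟨j, hj, hij⟩
      · rintro i rfl n
        exact ha i n
    choose b hb using h2
    obtain ⟨i, hi⟩ := exists_bound hθ (Set.range b)
      (Cardinal.mk_range_le.trans_lt (hAc.trans_lt hcof))
    exact absurd (hi _ ⟨a i, rfl⟩) (not_lt.mpr (hb (a i) i rfl))
  have hBc : ∀ a, #(B a) ≤ #G := by
    intro a
    choose S hS hSB using fun σ : B a => σ.2
    let F : B a → (θ.ord.ToType → Option (Fin 4 → {g : G // e g ≤ a})) := fun σ i =>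
      if h : i ∈ S σ then some (fun n => ⟨σ.1 (y i n), hSB σ i h n⟩) else none
    have hF : Injective F := by
      intro σ τ hst
      apply Subtype.ext
      have h1 : (τ.1)⁻¹ * σ.1 = 1 := by
        apply hy (S σ) (hS σ)
        intro i hi n
        have h2 := congrFun hst i
        simp only [F, dif_pos hi] at h2
        by_cases hi' : i ∈ S τ
        · rw [dif_pos hi', Option.some.injEq] at h2
          have h3 : σ.1 (y i n) = τ.1 (y i n) := congrArg Subtype.val (congrFun h2 n)
          rw [MulAut.mul_apply, h3]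
          simp
        · rw [dif_neg hi'] at h2
          exact absurd h2 (by simp)
      rw [inv_mul_eq_one] at h1
      exact h1.symm
    refine (Cardinal.mk_le_of_injective hF).trans ?_
    rw [← Cardinal.power_def, Cardinal.mk_ord_toType]
    apply hpow
    have hsub : #{g : G // e g ≤ a} < #G := by
      have h1 : #{g : G // e g ≤ a} = #(Set.Iic (a : (#G).ord.ToType)) :=
        Cardinal.mk_congr (e.subtypeEquiv fun g => Iff.rfl)
      rw [h1, ← Set.Iio_insert]
      refine (Cardinal.mk_insert_le).trans_lt ?_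
      exact Cardinal.add_lt_of_lt hc (Cardinal.mk_Iio_toType_ord_lt _)
        (Cardinal.one_lt_aleph0.trans_le hc)
    rw [Cardinal.mk_option]
    refine Cardinal.add_lt_of_lt hc ?_ (Cardinal.one_lt_aleph0.trans_le hc)
    rcases lt_or_ge #{g : G // e g ≤ a} ℵ₀ with h | h
    · haveI : Finite {g : G // e g ≤ a} := Cardinal.lt_aleph0_iff_finite.mp h
      exact (Cardinal.lt_aleph0_of_finite _).trans_le hc
    · exact (mk_four_le h).trans_lt hsub
  have huniv : (⋃ a, B a) = Set.univ := by
    ext σ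
    simp only [Set.mem_iUnion, Set.mem_univ, iff_true]
    exact hB σ
  rw [← Cardinal.mk_univ, ← huniv]
  refine (Cardinal.mk_iUnion_le_sum_mk).trans ?_
  refine (Cardinal.sum_le_mk_mul_iSup _).trans ?_
  have hA' : #A ≤ #G := by
    rw [hAc]
    exact (Ordinal.cof_ord_le _)
  refine (mul_le_mul' hA' (ciSup_le' hBc)).trans ?_
  rw [Cardinal.mul_eq_self hc]

end Pool.Agent.KS6_46.KEC
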